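import Pool.Agent.Lib.helper31.Wav4

set_option autoImplicit false

namespace Pool.Agent.Results.MP_4ccfbf_an.Optimal

open Filter Topology Set Pool.Agent.H31Wav

section defs

variable {H Y : Type} [NormedAddCommGroup H] [InnerProductSpace ℂ H] [CompleteSpace H]
  [NormedAddCommGroup Y] [InnerProductSpace ℂ Y] [CompleteSpace Y]

/-- nonnegative, self-adjoint, and `A + I` has a compact inverse -/
structure Adm (A : H →ₗ.[ℂ] H) : Prop where
  sa : IsSelfAdjoint A
  nonneg : ∀ x : A.domain, 0 ≤ (inner ℂ (A x) (x : H)).re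
  cpt : ∃ R : H →L[ℂ] H, IsCompactOperator R ∧
    (∀ y, ∃ h : R y ∈ A.domain, A ⟨R y, h⟩ + R y = y) ∧ ∀ x : A.domain, R (A x + x) = x

/-- weak solutions of `u' + i A u = 0` (every orbit of the unitary group is one) -/
def SchSol (A : H →ₗ.[ℂ] H) (u : ℝ → H) : Prop :=
  Continuous u ∧ ∀ (φ : A.domain) (t : ℝ),
    HasDerivAt (fun s => inner ℂ (φ : H) (u s)) (-Complex.I * inner ℂ (A φ) (u t)) t

/-- observability in time `T` -/
def Observable (A : H →ₗ.[ℂ] H) (B : Y →L[ℂ] H) (T : ℝ) : Prop :=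
  ∃ K : ℝ, 0 < K ∧ ∀ u, SchSol A u →
    ‖u 0‖ ^ 2 ≤ K * ∫ t in (0 : ℝ)..T, ‖ContinuousLinearMap.adjoint B (u t)‖ ^ 2

/-- the quadratic form of `A`, the squared norm of the square root of `A` applied to `x` -/
noncomputable def qf (A : H →ₗ.[ℂ] H) (x : A.domain) : ℝ := (inner ℂ (A x) (x : H)).re

/-- regular classical solutions `(u, v) = (u, u')` of `u'' + A u + B B* u' = 0` -/
structure WaveSol (A : H →ₗ.[ℂ] H) (B : Y →L[ℂ] H) (u v : ℝ → A.domain) : Prop where
  du : ∀ t, HasDerivAt (fun s => (u s : H)) (v t : H) t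
  dAu : ∀ t, HasDerivAt (fun s => A (u s)) (A (v t)) t
  dv : ∀ t, HasDerivAt (fun s => (v s : H))
    (-A (u t) - B (ContinuousLinearMap.adjoint B (v t))) t

/-- the energy seminorm of `(x, y)` -/
noncomputable def semi (A : H →ₗ.[ℂ] H) (x y : A.domain) : ℝ := √(qf A x + ‖(y : H)‖ ^ 2)

/-- the norm of `(x, y)` in the energy space -/
noncomputable def nrm (A : H →ₗ.[ℂ] H) (x : A.domain) (y : H) : ℝ :=
  √(qf A x + ‖(x : H)‖ ^ 2 + ‖y‖ ^ 2)

/-- the graph norm of `(x, y)` for the generator -/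
noncomputable def gr (A : H →ₗ.[ℂ] H) (B : Y →L[ℂ] H) (x y : A.domain) : ℝ :=
  nrm A x y + nrm A y (-A x - B (ContinuousLinearMap.adjoint B y))

/-- the decay estimate at rate `f`, asked only of the regular classical solutions -/
def StableAt (A : H →ₗ.[ℂ] H) (B : Y →L[ℂ] H) (f : ℝ → ℝ) : Prop :=
  ∃ C : ℝ, ∀ u v, WaveSol A B u v → ∀ t, 0 < t →
    semi A (u t) (v t) ≤ C * f t * gr A B (u 0) (v 0)

lemma qf_smul (A : H →ₗ.[ℂ] H) (a : ℂ) (x : A.domain) : qf A (a • x) = ‖a‖ ^ 2 * qf A x := by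
  unfold qf
  rw [LinearPMap.map_smul, Submodule.coe_smul, inner_smul_left, inner_smul_right, ← mul_assoc,
    Complex.conj_mul', ← Complex.ofReal_pow, Complex.re_ofReal_mul]

lemma mode {A : H →ₗ.[ℂ] H} {B : Y →L[ℂ] H} (hA : ∀ x : A.domain, 0 ≤ qf A x) {f : ℝ → ℝ}
    {C : ℝ} (hC : ∀ u v, WaveSol A B u v → ∀ t, 0 < t →
      semi A (u t) (v t) ≤ C * f t * gr A B (u 0) (v 0)) {l : ℂ} (hl : 1 ≤ ‖l‖) {φ : A.domain}
    (h0 : (φ : H) ≠ 0)
    (hφ : A φ + l • B (ContinuousLinearMap.adjoint B φ) + l ^ 2 • (φ : H) = 0) {t : ℝ}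
    (ht : 0 < t) : Real.exp (l.re * t) ≤ |C * f t| * (4 * ‖l‖) := by
  have hd : ∀ t : ℝ, HasDerivAt (fun s : ℝ => Complex.exp (l * s)) (l * Complex.exp (l * t)) t :=
    fun t => (((hasDerivAt_id t).ofReal_comp.const_mul l).cexp).congr_deriv (by simp [mul_comm])
  have e : ∀ a : ℂ, -A (a • φ) - B (ContinuousLinearMap.adjoint B ((l * a) • φ : A.domain)) =
      (l * (l * a)) • (φ : H) := fun a => by
    rw [LinearPMap.map_smul, Submodule.coe_smul, map_smul, map_smul]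
    linear_combination (norm := module) (-a) • hφ
  have hs : WaveSol A B (fun t : ℝ => Complex.exp (l * t) • φ)
      (fun t : ℝ => (l * Complex.exp (l * t)) • φ) := by
    refine ⟨fun t => (hd t).smul_const (φ : H), fun t => ?_, fun t => ?_⟩
    · simp only [LinearPMap.map_smul]
      exact (hd t).smul_const _
    · rw [e]
      exact ((hd t).const_mul l).smul_const (φ : H)
  have h := hC _ _ hs t ht
  have hq := hA φ
  have hN : 0 < ‖(φ : H)‖ ^ 2 := pow_pos (norm_pos_iff.2 h0) 2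
  have hL : 1 ≤ ‖l‖ ^ 2 := one_le_pow₀ hl
  set E := qf A φ + ‖l‖ ^ 2 * ‖(φ : H)‖ ^ 2 with hE
  have hE0 : 0 < E := by positivity
  have a1 : semi A (Complex.exp (l * t) • φ) ((l * Complex.exp (l * t)) • φ) =
      Real.exp (l.re * t) * √E := by
    unfold semi
    rw [qf_smul, Submodule.coe_smul, norm_smul, norm_mul, Complex.norm_exp,
      show (l * t).re = l.re * t by simp,
      show Real.exp (l.re * t) ^ 2 * qf A φ + (‖l‖ * Real.exp (l.re * t) * ‖(φ : H)‖) ^ 2 =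
        Real.exp (l.re * t) ^ 2 * E by rw [hE]; ring, Real.sqrt_mul (by positivity),
      Real.sqrt_sq (by positivity)]
  have a2 : gr A B (Complex.exp (l * (0 : ℝ)) • φ) ((l * Complex.exp (l * (0 : ℝ))) • φ) ≤
      4 * ‖l‖ * √E := by
    unfold gr nrm
    rw [e]
    simp only [Complex.ofReal_zero, mul_zero, Complex.exp_zero, one_smul, mul_one, qf_smul,
      Submodule.coe_smul, norm_smul, norm_mul]
    have b : 2 * ‖l‖ * √E = √((2 * ‖l‖) ^ 2 * E) := by
      rw [Real.sqrt_mul (by positivity), Real.sqrt_sq (by positivity)]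
    have c1 : ‖(φ : H)‖ ^ 2 ≤ ‖l‖ ^ 2 * ‖(φ : H)‖ ^ 2 := by nlinarith
    have c2 : qf A φ + ‖(φ : H)‖ ^ 2 + (‖l‖ * ‖(φ : H)‖) ^ 2 ≤ 2 * E := by rw [hE]; nlinarith
    have b1 : √(qf A φ + ‖(φ : H)‖ ^ 2 + (‖l‖ * ‖(φ : H)‖) ^ 2) ≤ 2 * ‖l‖ * √E := by
      rw [b]; refine Real.sqrt_le_sqrt ?_; nlinarith
    have b2 : √(‖l‖ ^ 2 * qf A φ + (‖l‖ * ‖(φ : H)‖) ^ 2 + (‖l‖ * ‖l‖ * ‖(φ : H)‖) ^ 2) ≤
        2 * ‖l‖ * √E := by
      rw [b]; refine Real.sqrt_le_sqrt ?_
      have := mul_le_mul_of_nonneg_left c2 (sq_nonneg ‖l‖)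
      nlinarith
    linarith
  have a3 : 0 ≤ gr A B (Complex.exp (l * (0 : ℝ)) • φ) ((l * Complex.exp (l * (0 : ℝ))) • φ) := by
    unfold gr nrm; positivity
  rw [a1] at h
  refine le_of_mul_le_mul_right (h.trans ?_) (Real.sqrt_pos.2 hE0)
  calc _ ≤ |C * f t| * gr A B (Complex.exp (l * (0 : ℝ)) • φ)
        ((l * Complex.exp (l * (0 : ℝ))) • φ) := mul_le_mul_of_nonneg_right (le_abs_self _) a3
    _ ≤ |C * f t| * (4 * ‖l‖ * √E) := mul_le_mul_of_nonneg_left a2 (abs_nonneg _)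
    _ = _ := by ring

end defs

theorem result : ∃ (A : lp (fun _ : ℕ => ℂ) 2 →ₗ.[ℂ] lp (fun _ : ℕ => ℂ) 2)
    (B : lp (fun _ : ℕ => ℂ) 2 →L[ℂ] lp (fun _ : ℕ => ℂ) 2), Adm A ∧
    (∃ T : ℝ, 0 < T ∧ Observable A B T) ∧
    ∀ α : ℝ, 1 / 2 < α → ¬ StableAt A B (fun t => t ^ (-α)) := by
  obtain ⟨C, hC⟩ := exists_obs bb bb_abs
  refine ⟨DD mm, ContinuousLinearMap.adjoint C, ⟨DD_sa mm, DD_nonneg mm_nonneg,
    DD_res mm_nonneg mm_lim⟩, ⟨2 * Real.pi, by positivity, (2 * Real.pi * (1 / 32))⁻¹,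
    by positivity, fun u hu => ?_⟩, fun α hα ⟨K, hK⟩ => ?_⟩
  · rw [ContinuousLinearMap.adjoint_adjoint]
    refine observe (by norm_num) (fun k => by rw [bb_sq]; exact (pp_bd k).1) mm_step hC hu.1
      fun k t => ?_
    have := hu.2 ⟨delta k, delta_dom mm k⟩ t
    rw [DD_delta, inner_smul_left, inner_delta, Complex.conj_ofReal] at this
    simpa only [inner_delta] using this
  · have key : ∀ n, Real.exp (-1) ≤ |K| * 8 * om n ^ (-(2 * α - 1)) := by
      intro n
      obtain ⟨φ, h0, hφ⟩ := eig hC n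
      have h1 := om_ge n
      have h2 := ep_pos n
      have h3 := ep_le n
      have hl : 1 ≤ ‖lam n‖ := by
        have := Complex.abs_im_le_norm (lam n)
        have e : (lam n).im = om n := by simp [lam]
        rw [e, abs_of_pos (by linarith)] at this
        linarith
      have hl2 : ‖lam n‖ ≤ 2 * om n := by
        refine (norm_add_le _ _).trans ?_
        rw [norm_neg, norm_mul, Complex.norm_I, Complex.norm_real, Complex.norm_real,
          Real.norm_eq_abs, Real.norm_eq_abs, abs_of_pos h2, abs_of_pos (by linarith)]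
        linarith
      have ht : 0 < 2 * om n ^ 2 := by positivity
      have := mode (DD_nonneg mm_nonneg) hK hl h0
        (by rw [ContinuousLinearMap.adjoint_adjoint]; exact hφ) ht
      have e : (lam n).re * (2 * om n ^ 2) = -1 := by
        have : (lam n).re = -ep n := by simp [lam]
        rw [this, ep]; field_simp
      rw [e, abs_mul, abs_of_pos (Real.rpow_pos_of_pos ht _)] at this
      have ho : 0 < om n := by linarith
      have b : (2 * om n ^ 2) ^ (-α) ≤ om n ^ (-(2 * α)) := by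
        rw [show -(2 * α) = 2 * (-α) by ring, Real.rpow_mul ho.le, Real.rpow_two]
        exact Real.rpow_le_rpow_of_nonpos (by positivity) (by nlinarith) (by linarith)
      have b2 : om n ^ (-(2 * α - 1)) = om n ^ (-(2 * α)) * om n := by
        rw [show -(2 * α - 1) = -(2 * α) + 1 by ring, Real.rpow_add_one ho.ne']
      refine this.trans ?_
      rw [b2]
      calc _ ≤ |K| * om n ^ (-(2 * α)) * (4 * (2 * om n)) := by gcongr
        _ = _ := by ring
    have lim : Tendsto (fun n => |K| * 8 * om n ^ (-(2 * α - 1))) atTop (𝓝 (|K| * 8 * 0)) :=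
      ((tendsto_rpow_neg_atTop (by linarith)).comp
        (tendsto_atTop_add_const_right _ 2 tendsto_natCast_atTop_atTop)).const_mul _
    have := ge_of_tendsto' lim key
    linarith [Real.exp_pos (-1)]

end Pool.Agent.Results.MP_4ccfbf_an.Optimal
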